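import Pool.Agent.H376R2.LMain

set_option autoImplicit false

namespace Pool.Agent.TH854.Odd

open Finset Pool.Agent.H376R2

theorem odd_forms (k : ℕ) (hk : Odd k) (a : Fin k → ℕ) (ha : ∀ i, 0 < a i) (r : ℕ) (hr : 0 < r) :
    ∃ δ : ℝ, 0 < δ ∧ ∃ N₀ : ℕ, ∀ N : ℕ, N₀ ≤ N → ∀ b : Fin k → ℕ,
      (∀ i, (b i : ℝ) ≤ δ * N) → ∀ c < r, ∀ σ : ℤ, (σ = 1 ∨ σ = -1) →
      δ * N ≤ (((Icc 1 N).filter
        (fun n => n % r = c ∧ ∏ i, lam (a i * n + b i) = σ)).card : ℝ) := by
  classical
  set Q : ℕ := ∏ i, a i with hQ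
  have hQ0 : 0 < Q := prod_pos fun i _ => ha i
  have hdvd : ∀ i, a i ∣ Q := fun i => dvd_prod_of_mem _ (mem_univ i)
  set e : Fin k → ℕ := fun i => Q / a i with he
  have hea : ∀ i, e i * a i = Q := fun i => Nat.div_mul_cancel (hdvd i)
  have he0 : ∀ i, 0 < e i := fun i => Nat.div_pos (Nat.le_of_dvd hQ0 (hdvd i)) (ha i)
  have heQ : ∀ i, e i ≤ Q := fun i => Nat.div_le_self _ _
  set s : ℤ := ∏ i, lam (e i) with hs
  have hs1 : s = 1 ∨ s = -1 := prod_pm univ (fun i => lam (e i)) (fun i _ => lam_pm _)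
  obtain ⟨δ', hδ', N₁, h⟩ := main_L k (Q * r) hk (Nat.mul_pos hQ0 hr)
  have hQr : (1 : ℝ) ≤ Q := by exact_mod_cast hQ0
  have hrr : (1 : ℝ) ≤ r := by exact_mod_cast hr
  obtain ⟨N₂, hN₂⟩ := exists_nat_ge ((Q * r : ℝ) / (δ' / (8 * r)))
  refine ⟨min (δ' / (8 * r * Q)) (δ' / (8 * r)), by positivity, 2 * r * N₁ + 4 * r + N₂, ?_⟩
  intro N hN b hb c hc σ hσ
  have hN4 : 4 * r ≤ N := by omega
  have hN1 : 2 * r * N₁ ≤ N := by omega
  have hNN2 : N₂ ≤ N := by omega
  set N' : ℕ := N / (2 * r) with hN'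
  have hN'1 : N₁ ≤ N' := by
    rw [hN', Nat.le_div_iff_mul_le (by omega)]
    linarith [mul_comm N₁ (2 * r)]
  have hN'2 : N' * (2 * r) ≤ N := Nat.div_mul_le_self _ _
  have hN'3 : (N : ℝ) / (2 * r) - 1 ≤ N' := by
    have h1 : N < (N' + 1) * (2 * r) := by
      have h2 := Nat.lt_div_mul_add (a := N) (b := 2 * r) (by omega)
      calc N < N / (2 * r) * (2 * r) + 2 * r := h2
        _ = (N' + 1) * (2 * r) := by rw [hN']; ring
    have h2 : (N : ℝ) < (N' + 1) * (2 * r) := by exact_mod_cast h1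
    have h3 : (N : ℝ) / (2 * r) < N' + 1 := by
      rw [div_lt_iff₀ (by positivity)]; exact h2
    linarith
  have hN4r : (4 * r : ℝ) ≤ N := by exact_mod_cast hN4
  have hN'4 : (N : ℝ) / (4 * r) ≤ N' := by
    have h1 : (N : ℝ) / (2 * r) = 2 * (N / (4 * r)) := by field_simp; ring
    have h2 : 1 ≤ (N : ℝ) / (4 * r) := by
      rw [le_div_iff₀ (by positivity)]; linarith
    rw [h1] at hN'3
    linarith
  have hNr : (0 : ℝ) < N := by linarith
  have hsmall : (Q * r : ℝ) ≤ δ' / (8 * r) * N := by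
    have h1 : (Q * r : ℝ) / (δ' / (8 * r)) ≤ N := hN₂.trans (by exact_mod_cast hNN2)
    rw [div_le_iff₀ (by positivity)] at h1
    linarith
  have hmain := h N' hN'1 (fun i => e i * (a i * c + b i)) (fun i => by
      have h1 := hb i
      have h2 : (b i : ℝ) ≤ δ' / (8 * r * Q) * N :=
        h1.trans (mul_le_mul_of_nonneg_right (min_le_left _ _) hNr.le)
      have h3 : (e i * (a i * c + b i) : ℕ) ≤ Q * c + Q * b i := by
        have h4 : e i * (a i * c + b i) = Q * c + e i * b i := by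
          rw [← hea i]; ring
        rw [h4]
        exact Nat.add_le_add_left (Nat.mul_le_mul_right _ (heQ i)) _
      have h4 : ((e i * (a i * c + b i) : ℕ) : ℝ) ≤ Q * c + Q * b i := by exact_mod_cast h3
      have h5 : (c : ℝ) ≤ r := by exact_mod_cast hc.le
      have h6 : (Q : ℝ) * c ≤ Q * r := mul_le_mul_of_nonneg_left h5 (by positivity)
      have h7 : (Q : ℝ) * b i ≤ δ' / (8 * r) * N := by
        calc (Q : ℝ) * b i ≤ Q * (δ' / (8 * r * Q) * N) :=
              mul_le_mul_of_nonneg_left h2 (by positivity)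
          _ = δ' / (8 * r) * N := by field_simp
      calc ((e i * (a i * c + b i) : ℕ) : ℝ) ≤ δ' / (8 * r) * N + δ' / (8 * r) * N := by linarith
        _ = δ' * (N / (4 * r)) := by field_simp; ring
        _ ≤ δ' * N' := mul_le_mul_of_nonneg_left hN'4 hδ'.le)
    (s * σ) (by
      rcases hs1 with h1 | h1 <;> rcases hσ with h2 | h2 <;> rw [h1, h2] <;> simp)
  have hle : ((Icc 1 N').filter (fun n => ∏ i, lam (Q * r * n + e i * (a i * c + b i)) =
      s * σ)).card ≤ ((Icc 1 N).filter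
        (fun n => n % r = c ∧ ∏ i, lam (a i * n + b i) = σ)).card := by
    apply card_le_card_of_injOn (fun m => r * m + c)
    · intro m hm
      rw [mem_coe, mem_filter, mem_Icc] at hm
      obtain ⟨⟨hm1, hm2⟩, hm3⟩ := hm
      rw [mem_coe, mem_filter, mem_Icc]
      have h1 : 0 < r * m := Nat.mul_pos hr (by omega)
      refine ⟨⟨by simp only; omega, ?_⟩, ?_, ?_⟩
      · have h2 : r * m ≤ r * N' := Nat.mul_le_mul_left _ hm2
        have h3 : r * N' + r * N' ≤ N := by
          calc r * N' + r * N' = N' * (2 * r) := by ring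
            _ ≤ N := hN'2
        simp only
        omega
      · simp only
        rw [Nat.mul_add_mod, Nat.mod_eq_of_lt hc]
      · have h4 : ∀ i, lam (Q * r * m + e i * (a i * c + b i)) =
            lam (e i) * lam (a i * (r * m + c) + b i) := by
          intro i
          rw [← lam_mul (he0 i).ne' (by
            have := Nat.mul_pos (ha i) (by omega : 0 < r * m + c)
            omega)]
          congr 1
          rw [← hea i]
          ring
        have h5 : ∏ i, lam (Q * r * m + e i * (a i * c + b i)) =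
            s * ∏ i, lam (a i * (r * m + c) + b i) := by
          rw [prod_congr rfl (fun i _ => h4 i), prod_mul_distrib]
        rw [h5] at hm3
        have hs0 : s ≠ 0 := by rcases hs1 with h1 | h1 <;> rw [h1] <;> norm_num
        exact mul_left_cancel₀ hs0 hm3
    · intro x _ y _ hxy
      simp only at hxy
      exact Nat.eq_of_mul_eq_mul_left hr (by omega)
  have hle' : (((Icc 1 N').filter (fun n => ∏ i, lam (Q * r * n + e i * (a i * c + b i)) =
      s * σ)).card : ℝ) ≤ (((Icc 1 N).filter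
        (fun n => n % r = c ∧ ∏ i, lam (a i * n + b i) = σ)).card : ℝ) := by exact_mod_cast hle
  refine le_trans ?_ (hmain.trans hle')
  calc min (δ' / (8 * r * Q)) (δ' / (8 * r)) * N ≤ δ' / (8 * r) * N :=
        mul_le_mul_of_nonneg_right (min_le_right _ _) hNr.le
    _ ≤ δ' * (N / (4 * r)) := by
        have : δ' / (8 * r) * N = δ' * (N / (4 * r)) / 2 := by field_simp; ring
        rw [this]
        have : 0 ≤ δ' * (N / (4 * r)) := by positivity
        linarith
    _ ≤ δ' * N' := mul_le_mul_of_nonneg_left hN'4 hδ'.le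

end Pool.Agent.TH854.Odd
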