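import Pool.Agent.H376R2.LMain

set_option autoImplicit false

namespace Pool.Agent.TH854.Odd

open Finset Pool.Agent.H376R2

/-- both signs of odd order products of the Möbius function, uniformly in the admissible shifts -/
theorem mu_main (r : ℕ) (I : Finset (Fin r)) (hI : Odd I.card) :
    ∃ δ : ℝ, 0 < δ ∧ ∃ N₀ : ℕ, ∀ N : ℕ, N₀ ≤ N → ∀ b : Fin r → ℕ,
      (∀ i, (b i : ℝ) ≤ δ * N) → (∀ p : ℕ, p.Prime → ∃ m : ℕ, ∀ i, ¬ p ^ 2 ∣ m + b i) →
      ∀ σ : ℤ, (σ = 1 ∨ σ = -1) →
      δ * N ≤ (((Icc 1 N).filter (fun n => (∀ i, Squarefree (n + b i)) ∧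
        ∏ i ∈ I, ArithmeticFunction.moebius (n + b i) = σ)).card : ℝ) := by
  classical
  have hIne : I.Nonempty := card_pos.mp hI.pos
  set w : ℕ := 6 * 2 ^ I.card * (r + 1) with hwdef
  set W : ℕ := w.factorial ^ 2 with hWdef
  have hWpos : 0 < W := pow_pos (Nat.factorial_pos w) 2
  have h2pow : 1 ≤ 2 ^ I.card := Nat.one_le_two_pow
  have hwpos : 1 ≤ w := by
    rw [hwdef]; exact Nat.mul_pos (by omega) (by omega)
  have hw2 : ∀ p : ℕ, p.Prime → p ≤ w → p ^ 2 ∣ W := by
    intro p hp hle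
    exact pow_dvd_pow_of_dvd ((Nat.Prime.dvd_factorial hp).mpr hle) 2
  have hw : ∀ p : ℕ, p.Prime → p ≤ w → p ∣ W := fun p hp hle =>
    (dvd_pow_self p (by norm_num)).trans (hw2 p hp hle)
  have hWw : ∀ p : ℕ, p.Prime → p ∣ W → p ≤ w := by
    intro p hp hd
    exact (Nat.Prime.dvd_factorial hp).mp (hp.dvd_of_dvd_pow hd)
  have hw6 : ∀ p : ℕ, p.Prime → p ≤ 6 * 2 ^ I.card → p ∣ W := by
    intro p hp hle
    apply hw p hp
    calc p ≤ 6 * 2 ^ I.card * 1 := by omega
      _ ≤ w := Nat.mul_le_mul_left _ (by omega)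
  obtain ⟨t, a, -, hdis, hclean, hQ⟩ := cube I hIne W hWpos hw6 0 1 le_rfl
  have hdpos : ∀ V, 0 < dd W t a V := fun V => by unfold dd; omega
  have hsqd : ∀ V ∈ I.powerset, Squarefree (dd W t a V) :=
    fun V hV => hclean.1 _ (mem_image_of_mem _ hV)
  have hcopd : ∀ V ∈ I.powerset, ∀ V' ∈ I.powerset, V ≠ V' →
      Nat.Coprime (dd W t a V) (dd W t a V') := by
    intro V hV V' hV' hne
    apply hclean.2 _ (mem_image_of_mem _ hV) _ (mem_image_of_mem _ hV')
    intro he
    apply hne
    apply Dis_inj I a hdis V V' (mem_powerset.mp hV) (mem_powerset.mp hV')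
    omega
  set D : ℕ := ∏ V ∈ I.powerset, dd W t a V with hD
  have hDpos : 0 < D := prod_pos (fun V _ => hdpos V)
  set M : ℕ := W * D ^ 2 with hM
  have hMpos : 0 < M := Nat.mul_pos hWpos (pow_pos hDpos 2)
  set A : ℕ := ∑ i ∈ I, a i with hA
  set P : ℕ := 2 ^ I.card with hP
  have hP1 : 1 ≤ P := h2pow
  set δ : ℝ := 1 / (16 * M * W * (A + 1) * P) with hδ
  have hMr : (1 : ℝ) ≤ M := by exact_mod_cast hMpos
  have hWr : (1 : ℝ) ≤ W := by exact_mod_cast hWpos
  have hPr : (1 : ℝ) ≤ P := by exact_mod_cast hP1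
  have hAr : (0 : ℝ) ≤ A := by positivity
  have hδpos : 0 < δ := by rw [hδ]; positivity
  have hδ1 : δ ≤ 1 / (16 * M * P) := by
    rw [hδ]
    apply one_div_le_one_div_of_le (by positivity)
    have h1 : (1 : ℝ) ≤ W * (A + 1) := by nlinarith
    calc (16 * M * P : ℝ) = 16 * M * P * 1 := by ring
      _ ≤ 16 * M * P * (W * (A + 1)) := by gcongr
      _ = 16 * M * W * (A + 1) * P := by ring
  have hδ2 : δ ≤ 1 / (16 * W * (A + 1)) := by
    rw [hδ]
    apply one_div_le_one_div_of_le (by positivity)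
    have h1 : (1 : ℝ) ≤ M * P := by nlinarith
    calc (16 * W * (A + 1) : ℝ) = 16 * W * (A + 1) * 1 := by ring
      _ ≤ 16 * W * (A + 1) * (M * P) := by gcongr
      _ = 16 * M * W * (A + 1) * P := by ring
  refine ⟨δ / 2, by positivity, 64 * M + (384 * M * (P * r + 1)) ^ 2, ?_⟩
  intro N hN0 k' hk'' hadm σ hσ
  have hN4 : 64 * M ≤ N := by omega
  have hN5 : (384 * M * (P * r + 1)) ^ 2 ≤ N := by omega
  have hNr : (0 : ℝ) < N := by
    have : 0 < N := by omega
    exact_mod_cast this
  have hk' : ∀ i, (k' i : ℝ) ≤ δ * N := fun i =>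
    (hk'' i).trans (mul_le_mul_of_nonneg_right (by linarith) hNr.le)
  have hkA : ∀ s, 16 * (W * (A + 1)) * k' s ≤ N := by
    intro s
    have h1 := hk' s
    have h2 : (k' s : ℝ) ≤ 1 / (16 * W * (A + 1)) * N :=
      h1.trans (mul_le_mul_of_nonneg_right hδ2 hNr.le)
    have h3 : (16 * (W * (A + 1)) : ℝ) * k' s ≤ N := by
      calc (16 * (W * (A + 1)) : ℝ) * k' s ≤
            16 * (W * (A + 1)) * (1 / (16 * W * (A + 1)) * N) := by
            gcongr
        _ = N := by field_simp
    exact_mod_cast h3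
  haveI : Nonempty (Fin r) := ⟨hIne.choose⟩
  obtain ⟨m, hm, hmN⟩ : ∃ m : ℕ, (∀ s, k' s ≤ m) ∧ 16 * (W * (A + 1)) * m ≤ N := by
    obtain ⟨s, _, hs⟩ := exists_max_image univ k' univ_nonempty
    exact ⟨k' s, fun s' => hs s' (mem_univ s'), hkA s⟩
  have hmN' : 16 * m ≤ N := by
    have h1 : 1 ≤ W * (A + 1) := Nat.mul_pos hWpos (by omega)
    calc 16 * m = 16 * 1 * m := by ring
      _ ≤ 16 * (W * (A + 1)) * m := by
          apply Nat.mul_le_mul_right
          exact Nat.mul_le_mul_left _ h1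
      _ ≤ N := hmN
  have hcard : 2 ^ I.card * Fintype.card (Fin r) ≤ w := by
    rw [Fintype.card_fin, hwdef]
    nlinarith [Nat.zero_le (2 ^ I.card * (r + 1))]
  -- the local datum at the small primes
  choose! mp hmp using hadm
  obtain ⟨n₁, hn₁⟩ := crt ((range (w + 1)).filter Nat.Prime)
    (fun p hp => (mem_filter.mp hp).2) mp (fun p => p ^ 2) (fun p _ => ⟨2, rfl⟩)
  obtain ⟨x₀, hx₀M, hx₀W, hx₀d, hx₀s⟩ :=
    good_residue w W t I a k' hw hcard hWpos hsqd hcopd n₁
  rw [← hD, ← hM] at hx₀M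
  set x : ℕ → ℕ := fun y => x₀ + M * (y + 1) with hx
  set nn : Finset (Fin r) → ℕ → ℕ := fun V y => (x y + W * jj I a k' V) / dd W t a V with hnn
  have hddM : ∀ V ∈ I.powerset, dd W t a V ∣ M := by
    intro V hV
    have h1 : dd W t a V ∣ D := dvd_prod_of_mem _ hV
    exact (h1.trans (dvd_pow_self D (by norm_num))).mul_left W
  have hdvd : ∀ V ∈ I.powerset, ∀ y, dd W t a V ∣ x y + W * jj I a k' V := by
    intro V hV y
    have e : x y + W * jj I a k' V = (x₀ + W * jj I a k' V) + M * (y + 1) := by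
      simp only [hx]; ring
    rw [e]
    exact dvd_add (hx₀d V hV) ((hddM V hV).mul_right _)
  have hnneq : ∀ V ∈ I.powerset, ∀ y, dd W t a V * nn V y = x y + W * jj I a k' V := by
    intro V hV y
    exact Nat.mul_div_cancel' (hdvd V hV y)
  have hlin : ∀ V ∈ I.powerset, ∀ y, nn V y = M / dd W t a V * y + nn V 0 := by
    intro V hV y
    apply Nat.eq_of_mul_eq_mul_left (hdpos V)
    rw [hnneq V hV y, mul_add, hnneq V hV 0, ← mul_assoc, Nat.mul_div_cancel' (hddM V hV)]
    simp only [hx]; ring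
  have hnnpos : ∀ V ∈ I.powerset, ∀ y, 1 ≤ nn V y := by
    intro V hV y
    have h1 := hnneq V hV y
    rcases Nat.eq_zero_or_pos (nn V y) with h | h
    · rw [h, mul_zero] at h1
      simp only [hx] at h1
      have : 0 < M * (y + 1) := Nat.mul_pos hMpos (by omega)
      omega
    · exact h
  have hnnW : ∀ V ∈ I.powerset, ∀ y, nn V y ≡ n₁ [MOD W] := by
    intro V hV y
    have h1 : dd W t a V ≡ 1 [MOD W] := by
      unfold dd
      have : 1 + W * (t + ∑ i ∈ V, a i) ≡ 1 + 0 [MOD W] :=
        Nat.ModEq.add_left 1 (Nat.modEq_zero_iff_dvd.mpr (dvd_mul_right _ _))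
      simpa using this
    have h2 : dd W t a V * nn V y ≡ 1 * nn V y [MOD W] := h1.mul_right _
    have h3 : x y + W * jj I a k' V ≡ x₀ [MOD W] := by
      have e : x y + W * jj I a k' V = x₀ + W * (D ^ 2 * (y + 1) + jj I a k' V) := by
        simp only [hx, hM]; ring
      rw [e]
      have := Nat.ModEq.add_left x₀ (Nat.modEq_zero_iff_dvd.mpr
        (dvd_mul_right W (D ^ 2 * (y + 1) + jj I a k' V)))
      simpa using this
    rw [hnneq V hV y, one_mul] at h2
    exact h2.symm.trans (h3.trans hx₀W)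
  -- squares of primes dividing `D`
  have hsqD : ∀ p : ℕ, p.Prime → p ∣ D → ∀ V ∈ I.powerset, ∀ s y,
      ¬ p ^ 2 ∣ dd W t a V * (nn V y + k' s) := by
    intro p hp hpD V hV s y hdiv
    apply hx₀s p hp hpD V hV s
    rw [mul_add, hnneq V hV y] at hdiv
    have hpM : p ^ 2 ∣ M * (y + 1) :=
      ((pow_dvd_pow_of_dvd hpD 2).mul_left W).mul_right _
    have e : x y + W * jj I a k' V + dd W t a V * k' s =
        M * (y + 1) + (x₀ + W * jj I a k' V + dd W t a V * k' s) := by
      simp only [hx]; ring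
    rw [e] at hdiv
    exact (Nat.dvd_add_right hpM).mp hdiv
  have hsqW : ∀ p : ℕ, p.Prime → p ≤ w → ∀ V ∈ I.powerset, ∀ s y, ¬ p ^ 2 ∣ nn V y + k' s := by
    intro p hp hpw V hV s y hdiv
    apply hmp p hp s
    have h1 : nn V y ≡ mp p [MOD p ^ 2] :=
      ((hnnW V hV y).of_dvd (hw2 p hp hpw)).trans
        (hn₁ p (mem_filter.mpr ⟨mem_range.mpr (by omega), hp⟩))
    have h2 : nn V y + k' s ≡ mp p + k' s [MOD p ^ 2] := h1.add_right _
    exact Nat.modEq_zero_iff_dvd.mp (h2.symm.trans (Nat.modEq_zero_iff_dvd.mpr hdiv))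
  -- size
  set Y : ℕ := N / (4 * M) with hY
  have hMY : M * Y * 4 ≤ N := by
    have := Nat.div_mul_le_self N (4 * M)
    rw [hY]
    calc M * (N / (4 * M)) * 4 = N / (4 * M) * (4 * M) := by ring
      _ ≤ N := this
  have hnnle : ∀ V ∈ I.powerset, ∀ y < Y, nn V y ≤ N := by
    intro V hV y hy
    have h1 : nn V y ≤ x y + W * jj I a k' V := Nat.div_le_self _ _
    have h2 : M * (y + 1) ≤ M * Y := Nat.mul_le_mul_left _ hy
    have h3 : jj I a k' V ≤ A * m := jj_le I a k' V m hm
    have h4 : W * jj I a k' V ≤ W * (A * m) := Nat.mul_le_mul_left _ h3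
    have h5 : W * (A * m) ≤ W * (A + 1) * m := by nlinarith
    simp only [hx] at h1
    have h6 : 16 * (W * (A + 1) * m) ≤ N := by
      calc 16 * (W * (A + 1) * m) = 16 * (W * (A + 1)) * m := by ring
        _ ≤ N := hmN
    omega
  -- the sieve
  set B : ℕ := Nat.sqrt (2 * N) + 1 with hB
  have hBsq : 2 * N ≤ B ^ 2 := by
    rw [hB, pow_two]
    exact (Nat.lt_succ_sqrt (2 * N)).le
  set S : Finset (Finset (Fin r) × Fin r) := I.powerset ×ˢ univ with hS
  have hScard : S.card = P * r := by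
    rw [hS, card_product, card_powerset, card_univ, Fintype.card_fin]
  have hsieve := sieve S (fun c => M / dd W t a c.1) (fun c => nn c.1 0 + k' c.2) w Y B hwpos
    (by
      rintro ⟨V, s⟩ hVs
      have hV : V ∈ I.powerset := (mem_product.mp hVs).1
      have := hnnpos V hV 0
      simp only
      omega)
    (by
      rintro ⟨V, s⟩ hVs p hp hpw u hdiv
      have hV : V ∈ I.powerset := (mem_product.mp hVs).1
      simp only at hpw hdiv
      have e : M / dd W t a V * u + (nn V 0 + k' s) = nn V u + k' s := by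
        rw [hlin V hV u]; ring
      rw [e] at hdiv
      by_cases hpw' : p ≤ w
      · exact hsqW p hp hpw' V hV s u hdiv
      · have h1 : p ∣ M / dd W t a V := hpw.resolve_left hpw'
        have h2 : p ∣ M := h1.trans (Nat.div_dvd_of_dvd (hddM V hV))
        rw [hM] at h2
        rcases hp.dvd_mul.mp h2 with h3 | h3
        · exact hpw' (hWw p hp h3)
        · exact hsqD p hp (hp.dvd_of_dvd_pow h3) V hV s u (hdiv.mul_left _))
    (by
      rintro ⟨V, s⟩ hVs u hu
      have hV : V ∈ I.powerset := (mem_product.mp hVs).1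
      simp only
      have e : M / dd W t a V * u + (nn V 0 + k' s) = nn V u + k' s := by
        rw [hlin V hV u]; ring
      rw [e]
      have h1 := hnnle V hV u hu
      have h2 := hm s
      omega)
  set bad : Finset ℕ := (range Y).filter
    (fun u => ∃ c ∈ S, ¬ Squarefree (M / dd W t a c.1 * u + (nn c.1 0 + k' c.2))) with hbad
  rw [hScard] at hsieve
  have hYr : (N : ℝ) / (4 * M) - 1 ≤ Y := by
    have h1 : N < (Y + 1) * (4 * M) := by
      rw [hY]
      have h2 := Nat.lt_div_mul_add (a := N) (b := 4 * M) (by omega)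
      calc N < N / (4 * M) * (4 * M) + 4 * M := h2
        _ = (N / (4 * M) + 1) * (4 * M) := by ring
    have h2 : (N : ℝ) < (Y + 1) * (4 * M) := by exact_mod_cast h1
    have h3 : (N : ℝ) / (4 * M) < Y + 1 := by
      rw [div_lt_iff₀ (by positivity)]; exact h2
    linarith
  have hN4r : (64 * M : ℝ) ≤ N := by exact_mod_cast hN4
  have h8 : (N : ℝ) / (8 * M) ≤ Y := by
    have e : (N : ℝ) / (4 * M) = 2 * (N / (8 * M)) := by field_simp; ring
    have h4 : 1 ≤ (N : ℝ) / (8 * M) := by
      rw [le_div_iff₀ (by positivity)]; linarith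
    rw [e] at hYr
    linarith
  have hbadle : (bad.card : ℝ) ≤ Y / 2 := by
    refine hsieve.trans ?_
    have hr0 : (0 : ℝ) ≤ r := Nat.cast_nonneg r
    have hPr0 : (0 : ℝ) ≤ P * r := by positivity
    have h1 : ((P * r : ℕ) : ℝ) * ((Y : ℝ) / w) ≤ Y / 4 := by
      have hwr : (w : ℝ) = 6 * P * (r + 1) := by rw [hwdef, hP]; push_cast; ring
      have hw0 : (0 : ℝ) < w := by exact_mod_cast hwpos
      rw [← mul_div_assoc, div_le_div_iff₀ hw0 (by norm_num), hwr]
      push_cast
      have : (0 : ℝ) ≤ Y := Nat.cast_nonneg _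
      nlinarith [mul_nonneg hPr0 this, mul_nonneg (by linarith : (0 : ℝ) ≤ P) this]
    have h2 : ((P * r : ℕ) : ℝ) * (B : ℝ) ≤ Y / 4 := by
      have hB1 : (B : ℝ) ≤ 3 * √N := by
        have h3 : (Nat.sqrt (2 * N) : ℝ) ≤ √((2 * N : ℕ) : ℝ) := Real.nat_sqrt_le_real_sqrt
        have h4 : √((2 * N : ℕ) : ℝ) ≤ 2 * √N := by
          rw [show (2 : ℝ) * √N = √(4 * N) by
            rw [Real.sqrt_mul (by norm_num), show (4 : ℝ) = 2 ^ 2 by norm_num,
              Real.sqrt_sq (by norm_num)]]
          apply Real.sqrt_le_sqrt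
          push_cast
          linarith
        have h5 : (1 : ℝ) ≤ √N := by
          rw [Real.one_le_sqrt]
          have : (1 : ℝ) ≤ 64 * M := by linarith
          linarith
        rw [hB]
        push_cast
        linarith
      have hs : (384 * M * (P * r + 1) : ℝ) ≤ √N := by
        apply Real.le_sqrt_of_sq_le
        exact_mod_cast hN5
      have hs2 : √(N : ℝ) * √N = N := Real.mul_self_sqrt hNr.le
      have hs0 : 0 ≤ √(N : ℝ) := Real.sqrt_nonneg _
      have h6 : (384 * M * (P * r + 1) : ℝ) * √N ≤ N := by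
        calc (384 * M * (P * r + 1) : ℝ) * √N ≤ √N * √N := mul_le_mul_of_nonneg_right hs hs0
          _ = N := hs2
      have h7 : ((P * r : ℕ) : ℝ) * (B : ℝ) ≤ (P * r : ℝ) * (3 * √N) := by
        push_cast
        exact mul_le_mul_of_nonneg_left hB1 hPr0
      have h9 : (P * r : ℝ) * (3 * √N) ≤ N / (128 * M) := by
        rw [le_div_iff₀ (by positivity)]
        have h10 : 0 ≤ (M : ℝ) * √N := by positivity
        nlinarith
      have h11 : (N : ℝ) / (128 * M) = N / (8 * M) / 16 := by field_simp; ring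
      have : (0 : ℝ) ≤ Y := Nat.cast_nonneg _
      linarith
    push_cast at h1 h2 ⊢
    rw [mul_add]
    linarith
  set T : Finset ℕ := (Icc 1 N).filter (fun n => (∀ i, Squarefree (n + k' i)) ∧
    ∏ i ∈ I, ArithmeticFunction.moebius (n + k' i) = σ) with hT
  have hgood : ∀ y ∈ range Y \ bad, ∃ V ∈ I.powerset, nn V y ∈ T := by
    intro y hy
    rw [mem_sdiff] at hy
    obtain ⟨hy, hyb⟩ := hy
    have hsqf : ∀ V ∈ I.powerset, ∀ s, Squarefree (nn V y + k' s) := by
      intro V hV s
      by_contra hcon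
      apply hyb
      rw [hbad, mem_filter]
      refine ⟨hy, (V, s), mem_product.mpr ⟨hV, mem_univ s⟩, ?_⟩
      have e : M / dd W t a V * y + (nn V 0 + k' s) = nn V y + k' s := by
        rw [hlin V hV y]; ring
      simp only
      rw [e]
      exact hcon
    have hcop : ∀ V ∈ I.powerset, ∀ s ∈ I, Nat.Coprime (dd W t a V) (nn V y + k' s) := by
      intro V hV s _
      rw [Nat.coprime_iff_gcd_eq_one]
      by_contra hne
      obtain ⟨p, hp, hpd⟩ := Nat.exists_prime_and_dvd hne
      have h1 := hpd.trans (Nat.gcd_dvd_left _ _)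
      have h2 := hpd.trans (Nat.gcd_dvd_right _ _)
      apply hsqD p hp (h1.trans (dvd_prod_of_mem _ hV)) V hV s y
      rw [pow_two]
      exact mul_dvd_mul h1 h2
    have hid := prod_identity W t I a k' hI (x y) (fun V => nn V y) hQ
      (fun V hV => hnneq V hV y) (fun V hV s _ => hsqf V hV s) hsqd hcop
    by_contra hcon
    push Not at hcon
    have hall : ∀ V ∈ I.powerset, ∏ s ∈ I, ArithmeticFunction.moebius (nn V y + k' s) = -σ := by
      intro V hV
      have h1 := hcon V hV
      rw [hT, mem_filter, mem_Icc] at h1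
      have h2 : ∏ s ∈ I, ArithmeticFunction.moebius (nn V y + k' s) ≠ σ := by
        intro h3
        exact h1 ⟨⟨hnnpos V hV y, hnnle V hV y (mem_range.mp hy)⟩, hsqf V hV, h3⟩
      have h3 := prod_pm I (fun s => ArithmeticFunction.moebius (nn V y + k' s))
        (fun s _ => moebius_pm (hsqf V hV s))
      rcases h3 with h | h <;> rcases hσ with h' | h' <;> rw [h'] at h2 ⊢ <;> simp_all
    rw [prod_congr rfl hall, prod_const, card_powerset] at hid
    have heven : Even (2 ^ I.card) := by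
      apply (Nat.even_pow.mpr ⟨even_two, card_ne_zero.mpr hIne⟩)
    rw [heven.neg_pow] at hid
    rcases hσ with h' | h' <;> rw [h'] at hid
    · norm_num at hid
    · rw [heven.neg_one_pow] at hid; norm_num at hid
  have hcount : (range Y \ bad).card ≤ P * T.card := by
    have hsub : range Y \ bad ⊆ I.powerset.biUnion
        (fun V => (range Y \ bad).filter (fun y => nn V y ∈ T)) := by
      intro y hy
      obtain ⟨V, hV, hVT⟩ := hgood y hy
      rw [mem_biUnion]
      exact ⟨V, hV, mem_filter.mpr ⟨hy, hVT⟩⟩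
    calc (range Y \ bad).card ≤ (I.powerset.biUnion
          (fun V => (range Y \ bad).filter (fun y => nn V y ∈ T))).card := card_le_card hsub
      _ ≤ ∑ V ∈ I.powerset, ((range Y \ bad).filter (fun y => nn V y ∈ T)).card := card_biUnion_le
      _ ≤ ∑ V ∈ I.powerset, T.card := by
          apply sum_le_sum
          intro V hV
          apply card_le_card_of_injOn (fun y => nn V y)
          · intro y hy
            exact (mem_filter.mp hy).2
          · intro y _ y' _ he
            simp only at he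
            rw [hlin V hV y, hlin V hV y'] at he
            have hpos : 0 < M / dd W t a V :=
              Nat.div_pos (Nat.le_of_dvd hMpos (hddM V hV)) (hdpos V)
            exact Nat.eq_of_mul_eq_mul_left hpos (by omega)
      _ = P * T.card := by rw [sum_const, card_powerset, smul_eq_mul]
  have hsd : (Y : ℝ) ≤ (range Y \ bad).card + bad.card := by
    have h1 : (range Y).card ≤ (range Y \ bad).card + bad.card := by
      have := card_le_card_sdiff_add_card (s := range Y) (t := bad)
      omega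
    rw [card_range] at h1
    exact_mod_cast h1
  have hcountr : ((range Y \ bad).card : ℝ) ≤ P * T.card := by exact_mod_cast hcount
  have hfin : (N : ℝ) / (16 * M) ≤ P * T.card := by
    have e : (N : ℝ) / (8 * M) = 2 * (N / (16 * M)) := by field_simp; ring
    rw [e] at h8
    linarith
  calc δ / 2 * N ≤ δ * N := by nlinarith
    _ ≤ 1 / (16 * M * P) * N := mul_le_mul_of_nonneg_right hδ1 hNr.le
    _ = N / (16 * M) / P := by field_simp
    _ ≤ T.card := by
        rw [div_le_iff₀ (by linarith)]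
        linarith

end Pool.Agent.TH854.Odd
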