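import Pool.Agent.TH854.Odd.B

set_option autoImplicit false

namespace Pool.Agent.TH854.Odd

open Finset

theorem mu_int (r : ℕ) (ε : Fin r → ℕ) (hε : ∀ i, ε i = 1 ∨ ε i = 2)
    (hodd : Odd (univ.filter fun i => ε i = 1).card) :
    ∃ δ : ℝ, 0 < δ ∧ ∃ N₀ : ℕ, ∀ N : ℕ, N₀ ≤ N → ∀ α : Fin r → ℤ,
      (∀ i, |(α i : ℝ)| ≤ δ * N) →
      (∀ p : ℕ, p.Prime → ∃ m : ℤ, ∀ i, ¬ (p : ℤ) ^ 2 ∣ m + α i) →
      ∀ σ : ℤ, (σ = 1 ∨ σ = -1) →
      δ * N ≤ (((Icc 1 N).filter (fun n : ℕ =>
        ∏ i, ArithmeticFunction.moebius (((n : ℤ) + α i).toNat) ^ ε i = σ)).card : ℝ) := by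
  classical
  set I : Finset (Fin r) := univ.filter fun i => ε i = 1 with hI
  obtain ⟨δ, hδ, N₀, h⟩ := mu_main r I hodd
  refine ⟨min (δ / 4) (1 / 2), by positivity, 2 * N₀ + 1, ?_⟩
  intro N hN α hα hadm σ hσ
  have hNr : (0 : ℝ) < N := by
    have : 0 < N := by omega
    exact_mod_cast this
  set S : ℕ := univ.sup (fun i => (α i).natAbs) with hS
  have hS1 : ∀ i, (α i).natAbs ≤ S := fun i => le_sup (f := fun i => (α i).natAbs) (mem_univ i)
  have hne : I.Nonempty := card_pos.mp hodd.pos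
  have hSr : (S : ℝ) ≤ min (δ / 4) (1 / 2) * N := by
    obtain ⟨i, _, hi⟩ := exists_mem_eq_sup univ ⟨hne.choose, mem_univ _⟩
      (fun i => (α i).natAbs)
    rw [hS, hi]
    have h1 := hα i
    have h2 : (((α i).natAbs : ℕ) : ℝ) = |(α i : ℝ)| := by
      rw [Nat.cast_natAbs]; push_cast; rfl
    rw [h2]
    exact h1
  have hS2 : (S : ℝ) ≤ N / 2 := by
    have := mul_le_mul_of_nonneg_right (min_le_right (δ / 4) (1 / 2)) hNr.le
    linarith
  have hS3 : (S : ℝ) ≤ δ / 4 * N :=
    hSr.trans (mul_le_mul_of_nonneg_right (min_le_left _ _) hNr.le)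
  have hSN : 2 * S ≤ N := by
    have : (2 * S : ℝ) ≤ N := by linarith
    exact_mod_cast this
  set N' : ℕ := N - S with hN'
  have hN'r : (N : ℝ) / 2 ≤ N' := by
    rw [hN', Nat.cast_sub (by omega)]
    linarith
  have hmain := h N' (by omega) (fun i => (α i + S).toNat) (fun i => by
      have h1 : (α i + S).toNat ≤ 2 * S := by have := hS1 i; omega
      have h2 : (((α i + S).toNat : ℕ) : ℝ) ≤ 2 * S := by exact_mod_cast h1
      have h3 := mul_le_mul_of_nonneg_left hN'r hδ.le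
      linarith)
    (fun p hp => by
      obtain ⟨m, hm⟩ := hadm p hp
      have hp2 : (0 : ℤ) < (p : ℤ) ^ 2 := by have := hp.pos; positivity
      refine ⟨((m - S) % (p : ℤ) ^ 2).toNat, fun i hdiv => hm i ?_⟩
      have h1 : (((m - S) % (p : ℤ) ^ 2).toNat : ℤ) = (m - S) % (p : ℤ) ^ 2 :=
        Int.toNat_of_nonneg (Int.emod_nonneg _ hp2.ne')
      have h2 : ((α i + S).toNat : ℤ) = α i + S := Int.toNat_of_nonneg (by
        have := hS1 i; omega)
      have h3 : ((p : ℤ) ^ 2) ∣ (m - S) % (p : ℤ) ^ 2 + (α i + S) := by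
        rw [← h1, ← h2]
        exact_mod_cast hdiv
      have h4 := Int.emod_add_mul_ediv (m - S) ((p : ℤ) ^ 2)
      have h5 : m + α i = ((m - S) % (p : ℤ) ^ 2 + (α i + S)) +
          (p : ℤ) ^ 2 * ((m - S) / (p : ℤ) ^ 2) := by linear_combination -h4
      rw [h5]
      exact dvd_add h3 (dvd_mul_right _ _))
    σ hσ
  have hle : ((Icc 1 N').filter (fun n => (∀ i, Squarefree (n + (α i + S).toNat)) ∧
        ∏ i ∈ I, ArithmeticFunction.moebius (n + (α i + S).toNat) = σ)).card ≤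
      ((Icc 1 N).filter (fun n : ℕ =>
        ∏ i, ArithmeticFunction.moebius (((n : ℤ) + α i).toNat) ^ ε i = σ)).card := by
    apply card_le_card_of_injOn (fun n => n + S)
    · intro n hn
      rw [mem_coe, mem_filter, mem_Icc] at hn
      obtain ⟨⟨hn1, hn2⟩, hn3, hn4⟩ := hn
      rw [mem_coe, mem_filter, mem_Icc]
      refine ⟨⟨by simp only; omega, by simp only; omega⟩, ?_⟩
      have h1 : ∀ i, (((n + S : ℕ) : ℤ) + α i).toNat = n + (α i + S).toNat := by
        intro i
        have := hS1 i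
        omega
      have h2 : ∀ i, ArithmeticFunction.moebius ((((n + S : ℕ) : ℤ) + α i).toNat) ^ ε i =
          if i ∈ I then ArithmeticFunction.moebius (n + (α i + S).toNat) else 1 := by
        intro i
        rw [h1 i]
        by_cases hi : i ∈ I
        · rw [if_pos hi, (mem_filter.mp hi).2, pow_one]
        · rw [if_neg hi]
          have h3 : ε i = 2 := (hε i).resolve_left (fun h4 => hi (mem_filter.mpr ⟨mem_univ _, h4⟩))
          rw [h3]
          exact ArithmeticFunction.moebius_sq_eq_one_of_squarefree (hn3 i)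
      rw [prod_congr rfl (fun i _ => h2 i), prod_ite_mem, univ_inter]
      exact hn4
    · intro x _ y _ hxy
      simp only at hxy
      omega
  have hle' : (((Icc 1 N').filter (fun n => (∀ i, Squarefree (n + (α i + S).toNat)) ∧
        ∏ i ∈ I, ArithmeticFunction.moebius (n + (α i + S).toNat) = σ)).card : ℝ) ≤
      (((Icc 1 N).filter (fun n : ℕ =>
        ∏ i, ArithmeticFunction.moebius (((n : ℤ) + α i).toNat) ^ ε i = σ)).card : ℝ) := by
    exact_mod_cast hle
  refine le_trans ?_ (hmain.trans hle')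
  have h3 := mul_le_mul_of_nonneg_left hN'r hδ.le
  have h4 := mul_le_mul_of_nonneg_right (min_le_left (δ / 4) (1 / 2)) hNr.le
  have h5 : 0 ≤ δ * N := by positivity
  linarith

end Pool.Agent.TH854.Odd
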